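import Pool.Agent.Y303.EJ.Stm

/-!
# The energy of the chain is almost conserved
-/

open Set Filter Topology MeasureTheory Metric

set_option autoImplicit false

namespace Pool.Agent.Y812.EJ

open Pool.Agent.Y303.EJ
open Pool.Agent.Y5 (Pr Pr_cont Pr_deriv Pr_mono Pr_zero mono_of)
open Pool.Agent.Y6.N (src ph)

section

variable {η : ℝ} {lm L C ℓ : ℕ → ℝ} {B : ℕ → ℕ → ℝ} {T : ℝ} {x R V : ℕ → ℝ → ℝ}

lemma th_cont (H : Ch η lm L C ℓ B T x R V) (i : ℕ) :
    ContinuousOn (fun s => L i * R (i + 1) s) (Ico 0 T) :=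
  continuousOn_const.mul (H.cR (i + 1))

/-- The clocks are monotone. -/
lemma th_mono (H : Ch η lm L C ℓ B T x R V) {s t : ℝ} (hs : 0 ≤ s) (hst : s ≤ t) (ht : t < T)
    (i : ℕ) : Th L R i s ≤ Th L R i t :=
  Pr_mono (th_cont H i) ⟨hs, hst.trans_lt ht⟩ ⟨hs.trans hst, ht⟩ hst fun u hu =>
    mul_nonneg (by linarith [H.nm.L1 i]) (H.R0 _ _ ⟨hs.trans hu.1.le, hu.2.trans ht⟩)

/-- The assumptions hold before. -/
lemma his_mono (H : Ch η lm L C ℓ B T x R V) {n : ℕ} {s t : ℝ} (hs : 0 ≤ s) (hst : s ≤ t)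
    (ht : t < T) (h : His η lm L R n t) : His η lm L R n s := by
  have hL := H.nm.L1 0
  refine ⟨le_trans ?_ h.time, fun i hi => (th_mono H hs hst ht i).trans (h.old i hi),
    (th_mono H hs hst ht _).trans h.next⟩
  gcongr

lemma R_step (H : Ch η lm L C ℓ B T x R V) (m : ℕ) {s : ℝ} (hs : s ∈ Ico 0 T) :
    R (m + 1) s ≤ R m s := by
  have h1 := H.Rsq m s hs
  have h2 := H.R0 m s hs
  have h3 := H.R0 (m + 1) s hs
  by_contra hno
  nlinarith [sq_nonneg (x m s)]

lemma R_le (H : Ch η lm L C ℓ B T x R V) (m : ℕ) {s : ℝ} (hs : s ∈ Ico 0 T) : R m s ≤ 1 := by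
  induction m with
  | zero => exact H.R1 s hs
  | succ m ih => exact (R_step H m hs).trans ih

lemma x_sq_le (H : Ch η lm L C ℓ B T x R V) (m : ℕ) {s : ℝ} (hs : s ∈ Ico 0 T) :
    x m s ^ 2 ≤ R m s ^ 2 := by
  have := H.Rsq m s hs
  nlinarith [sq_nonneg (R (m + 1) s)]

lemma lm_two (H : Ch η lm L C ℓ B T x R V) (m : ℕ) : 2 * lm m ≤ lm (m + 1) := by
  have h1 := H.sq.lm_grow m
  have h2 := H.nm.d0 (m + 1)
  have h3 := H.nm.d1 (m + 1)
  have h4 := H.nm.lm1 m
  have h5 := H.nm.lm1 (m + 1)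
  have h6 : dl η (m + 1) ^ 4 ≤ 1 := pow_le_one₀ h2.le (by linarith)
  have h7 : dl η (m + 1) ^ 4 * lm (m + 1) ≤ 1 * lm (m + 1) := by
    apply mul_le_mul_of_nonneg_right h6
    linarith [show (0 : ℝ) ≤ 10 ^ 30 by positivity]
  have h8 : (0 : ℝ) ≤ lm m := le_trans (by positivity) h4
  linarith

lemma lm_le (H : Ch η lm L C ℓ B T x R V) (m j : ℕ) : lm m ≤ lm (m + j) := by
  induction j with
  | zero => exact le_rfl
  | succ j ih =>
    have h1 := lm_two H (m + j)
    have h2 : (0 : ℝ) ≤ lm (m + j) := le_trans (by positivity) (H.nm.lm1 (m + j))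
    rw [← add_assoc]
    linarith

lemma exp_half (H : Ch η lm L C ℓ B T x R V) (m : ℕ) : Real.exp (-(lm m / 2)) ≤ 1 / 2 := by
  have h1 := H.nm.lm1 m
  have h2 : (1 : ℝ) ≤ lm m / 2 := by linarith [show (2 : ℝ) ≤ 10 ^ 30 by norm_num]
  have h3 := Real.add_one_le_exp (lm m / 2)
  rw [Real.exp_neg, inv_le_comm₀ (Real.exp_pos _) (by norm_num)]
  linarith

lemma exp_geo (H : Ch η lm L C ℓ B T x R V) (m j : ℕ) :
    Real.exp (-(lm (m + j) / 2)) ≤ Real.exp (-(lm m / 2)) * (1 / 2) ^ j := by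
  induction j with
  | zero => simp
  | succ j ih =>
    have h1 := lm_two H (m + j)
    have h2 := exp_half H (m + j)
    have h3 := Real.exp_pos (-(lm (m + j) / 2))
    calc Real.exp (-(lm (m + (j + 1)) / 2)) ≤
          Real.exp (-(lm (m + j) / 2) + -(lm (m + j) / 2)) := by
          apply Real.exp_le_exp.2
          rw [← add_assoc]
          linarith
      _ = Real.exp (-(lm (m + j) / 2)) * Real.exp (-(lm (m + j) / 2)) := Real.exp_add _ _
      _ ≤ (Real.exp (-(lm m / 2)) * (1 / 2) ^ j) * (1 / 2) := by gcongr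
      _ = Real.exp (-(lm m / 2)) * (1 / 2) ^ (j + 1) := by ring

lemma l_le (H : Ch η lm L C ℓ B T x R V) (m : ℕ) :
    ℓ (m + 1) ≤ dl η (m + 1) ^ 4 / 10 ^ 6 * L m := by
  have := H.sq.ℓ_succ m
  rw [div_mul_eq_mul_div, le_div_iff₀ (by positivity)]
  linarith

/-- the dissipation in the high modes -/
lemma V_far (H : Ch η lm L C ℓ B T x R V) (hF : FAR η lm L T R) {n : ℕ} {s : ℝ}
    (hs : s ∈ Ico 0 T) (hh : His η lm L R n s) :
    V (n + 3) s ≤ 2 * Real.exp (-(lm (n + 2) / 2)) := by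
  refine (H.Vb (n + 3) s hs (fun j => Real.exp (-(lm (n + 2) / 2)) * (1 / 2) ^ j) ?_ ?_).trans ?_
  · intro j
    refine le_trans ?_ (exp_geo H (n + 2) j)
    have e1 : n + 3 + j = n + 2 + j + 1 := by omega
    rw [e1]
    set m := n + 2 + j with hm
    have h1 := l_le H m
    have h2 := H.nm.QL m m (by omega)
    have h3 := (hF n s hs hh m (by omega)).1
    have h4 := x_sq_le H (m + 1) hs
    have h5 := H.R0 (m + 1) s hs
    have d0 := H.nm.d0 (m + 1)
    have d1 := H.nm.d1 (m + 1)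
    have h6 : dl η (m + 1) ^ 4 ≤ 1 := pow_le_one₀ d0.le (by linarith)
    have hL := H.nm.L1 m
    have h7 : ℓ (m + 1) ≤ L m := by
      have : dl η (m + 1) ^ 4 / 10 ^ 6 * L m ≤ 1 * L m := by
        apply mul_le_mul_of_nonneg_right _ (by linarith)
        rw [div_le_iff₀ (by positivity)]
        linarith
      linarith
    have h8 : x (m + 1) s ^ 2 ≤ Real.exp (-(lm m)) := by
      calc x (m + 1) s ^ 2 ≤ R (m + 1) s ^ 2 := h4
        _ ≤ Real.exp (-(lm m / 2)) ^ 2 := by gcongr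
        _ = Real.exp (-(lm m)) := by rw [← Real.exp_nat_mul]; congr 1; push_cast; ring
    have hl0 := H.sq.ℓ_nonneg (m + 1)
    calc ℓ (m + 1) * x (m + 1) s ^ 2 ≤ Q η lm m * Real.exp (-(lm m)) := by
          apply mul_le_mul (h7.trans h2) h8 (sq_nonneg _)
          unfold Q; positivity
      _ = Real.exp (dl η m * lm m / 10 ^ 6 + -(lm m)) := by unfold Q; rw [Real.exp_add]
      _ ≤ Real.exp (-(lm m / 2)) := by
          apply Real.exp_le_exp.2
          have h9 : (0 : ℝ) ≤ lm m := le_trans (by positivity) (H.nm.lm1 m)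
          have h10 := H.nm.d1 m
          have h11 : dl η m * lm m ≤ 1 / 100 * lm m := mul_le_mul_of_nonneg_right h10 h9
          have h12 : dl η m * lm m / 10 ^ 6 ≤ lm m / 2 := by
            rw [div_le_iff₀ (by positivity)]
            nlinarith
          linarith
  · exact summable_geometric_two.mul_left _
  · rw [tsum_mul_left, tsum_geometric_two]
    linarith

lemma V_sum (H : Ch η lm L C ℓ B T x R V) {s : ℝ} (hs : s ∈ Ico 0 T) (k : ℕ) :
    V 0 s = ∑ j ∈ Finset.range k, ℓ j * x j s ^ 2 + V k s := by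
  induction k with
  | zero => simp
  | succ k ih => rw [ih, H.Vs k s hs, Finset.sum_range_succ, add_assoc]

lemma dl_sum (H : Ch η lm L C ℓ B T x R V) (k : ℕ) :
    ∑ i ∈ Finset.range k, dl η (i + 1) ^ 4 ≤ dl η 0 ^ 4 - dl η k ^ 4 := by
  induction k with
  | zero => simp
  | succ k ih =>
    rw [Finset.sum_range_succ]
    have h1 := H.nm.ds k
    have h2 := H.nm.d0 k
    have h3 : dl η (k + 1) ^ 4 = dl η k ^ 4 / 256 := by rw [h1]; ring
    have h4 : 0 < dl η k ^ 4 := by positivity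
    linarith

end

theorem t_ENL : S_ENL := by
  intro η lm L C ℓ B T x R V H hFAR n t ht hhis
  have hη := H.sq.η0
  have hη1 := H.sq.η1
  choose! D hD using H.dR 0
  set K : ℝ := 2 * ℓ 0 + 2 * e0 lm + 4 * ph lm 0 + 4 * Real.exp (-(lm (n + 2) / 2)) with hK
  have hph0 : 0 < ph lm 0 := Real.exp_pos _
  have he0 : 0 < e0 lm := by unfold e0; positivity
  have hmono := mono_of (a := 0) (b := t)
    (f := fun s => R 0 s ^ 2 + (K * s + 2 * ∑ i ∈ Finset.range (n + 2), ℓ (i + 1) / L i * Th L R i s))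
    (f' := fun s => D s + (K * 1 + 2 * ∑ i ∈ Finset.range (n + 2),
      ℓ (i + 1) / L i * (L i * R (i + 1) s))) ht.1
    (by
      have hsub : Icc 0 t ⊆ Ico 0 T := fun s hs => ⟨hs.1, hs.2.trans_lt ht.2⟩
      refine ContinuousOn.add (((H.cR 0).mono hsub).pow 2) (ContinuousOn.add (by fun_prop) ?_)
      refine continuousOn_const.mul (continuousOn_finsetSum _ fun i _ => ?_)
      exact continuousOn_const.mul ((Pr_cont (th_cont H i)).mono hsub))
    (fun s hs => by
      have hs' : s ∈ Ioo 0 T := ⟨hs.1, hs.2.trans ht.2⟩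
      refine (hD s hs').1.add (((hasDerivAt_id' s).const_mul K).add ?_)
      refine HasDerivAt.const_mul 2 (HasDerivAt.fun_sum fun i _ => ?_)
      exact (Pr_deriv (th_cont H i) hs').const_mul _)
    (fun s hs => by
      have hs' : s ∈ Ioo 0 T := ⟨hs.1, hs.2.trans ht.2⟩
      have hs'' : s ∈ Ico 0 T := ⟨hs.1.le, hs.2.trans ht.2⟩
      have hhs := his_mono H hs.1.le hs.2.le ht.2 hhis
      have h1 := (hD s hs').2
      have hR0 := H.R0 0 s hs''
      have hR1 := R_le H 0 hs''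
      have e1 : Sg L x 0 s = 0 := by simp [Sg]
      have e2 : src L C x 0 s = 0 := by simp [src]
      rw [e1, e2, zero_mul, zero_mul, zero_add, zero_sub] at h1
      have h2 := (abs_le.1 h1).1
      have h3 : e0 lm * R 0 s ^ 2 ≤ e0 lm * 1 := by
        apply mul_le_mul_of_nonneg_left _ he0.le
        exact pow_le_one₀ hR0 hR1
      have h4 : ph lm 0 * R 0 s ≤ ph lm 0 * 1 := mul_le_mul_of_nonneg_left hR1 hph0.le
      have h5 := V_sum H hs'' (n + 3)
      have h6 := V_far H hFAR hs'' hhs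
      have h7 : ∑ j ∈ Finset.range (n + 3), ℓ j * x j s ^ 2 ≤
          ∑ i ∈ Finset.range (n + 2), ℓ (i + 1) / L i * (L i * R (i + 1) s) + ℓ 0 := by
        rw [Finset.sum_range_succ']
        refine add_le_add (Finset.sum_le_sum fun i _ => ?_) ?_
        · have hL := H.nm.L1 i
          have hL0 : L i ≠ 0 := by linarith
          have e3 : ℓ (i + 1) / L i * (L i * R (i + 1) s) = ℓ (i + 1) * R (i + 1) s := by
            field_simp
          rw [e3]
          refine mul_le_mul_of_nonneg_left ?_ (H.sq.ℓ_nonneg _)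
          have h8 := x_sq_le H (i + 1) hs''
          have h9 := H.R0 (i + 1) s hs''
          have h10 := R_le H (i + 1) hs''
          nlinarith
        · have h8 := x_sq_le H 0 hs''
          have h9 : x 0 s ^ 2 ≤ 1 := h8.trans (pow_le_one₀ hR0 hR1)
          have := mul_le_mul_of_nonneg_left h9 (H.sq.ℓ_nonneg 0)
          linarith
      rw [hK]
      linarith)
  have e0' : R 0 0 ^ 2 = 1 := by
    rw [H.Rsq 0 0 ⟨le_rfl, H.hT⟩, H.h0, H.hn 0]; norm_num
  have e1' : ∀ i, Th L R i 0 = 0 := fun i => by unfold Th; simp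
  rw [e0'] at hmono
  simp only [e1', mul_zero, Finset.sum_const_zero, add_zero] at hmono
  -- numerical part
  have hL0 := H.nm.L1 0
  have hlm0 := H.nm.lm1 0
  have hlm0' : (0 : ℝ) < lm 0 := lt_of_lt_of_le (by positivity) hlm0
  have ht0 := ht.1
  have htlm : t ≤ 3 * lm 0 := by
    have := hhis.time
    nlinarith
  have hd0 : dl η 0 = η := by simp [dl]
  have hl0t : ℓ 0 * t ≤ 3 * η ^ 4 / 10 ^ 6 := by
    have h1 := H.sq.ℓ_zero
    rw [hd0] at h1
    have h2 : ℓ 0 * (L 0 * t) ≤ ℓ 0 * (3 * lm 0) :=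
      mul_le_mul_of_nonneg_left hhis.time (H.sq.ℓ_nonneg 0)
    rw [le_div_iff₀ (by positivity)]
    have h3 : L 0 * (ℓ 0 * t * 10 ^ 6) ≤ L 0 * (3 * η ^ 4) := by nlinarith
    exact le_of_mul_le_mul_left h3 (by linarith)
  have hexp : Real.exp (-(lm 0 / 2)) * lm 0 ≤ η ^ 2 / 10 ^ 5 := by
    have h1 := H.sq.lm_big 0
    rw [hd0] at h1
    have h2 := Real.pow_div_factorial_le_exp (lm 0 / 2) (by positivity) 3
    have h3 : Real.exp (-(lm 0 / 2)) ≤ 48 / lm 0 ^ 3 := by
      rw [Real.exp_neg, inv_le_comm₀ (Real.exp_pos _) (by positivity)]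
      refine le_trans (le_of_eq ?_) h2
      simp [Nat.factorial]
      ring
    have h4 : Real.exp (-(lm 0 / 2)) * lm 0 ≤ 48 / lm 0 ^ 2 := by
      calc Real.exp (-(lm 0 / 2)) * lm 0 ≤ 48 / lm 0 ^ 3 * lm 0 :=
            mul_le_mul_of_nonneg_right h3 hlm0'.le
        _ = 48 / lm 0 ^ 2 := by field_simp
    refine h4.trans ?_
    rw [div_le_div_iff₀ (by positivity) (by positivity)]
    have h5 : η ^ 4 * lm 0 ≤ η ^ 2 * lm 0 := by
      apply mul_le_mul_of_nonneg_right _ hlm0'.le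
      have : η ^ 2 ≤ 1 := pow_le_one₀ hη.le (by linarith)
      nlinarith [sq_nonneg η]
    have h6 : (10 : ℝ) ^ 30 * 1 ≤ η ^ 2 * lm 0 * lm 0 := by
      apply mul_le_mul (h1.trans h5) _ (by norm_num) (by positivity)
      linarith [show (1 : ℝ) ≤ 10 ^ 30 by norm_num]
    nlinarith
  have hKt : K * t ≤ 6 * η ^ 4 / 10 ^ 6 + 36 * (η ^ 2 / 10 ^ 5) := by
    have h1 : ph lm 0 ≤ Real.exp (-(lm 0 / 2)) := by
      unfold ph
      apply Real.exp_le_exp.2
      linarith
    have h2 : Real.exp (-(lm (n + 2) / 2)) ≤ Real.exp (-(lm 0 / 2)) := by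
      apply Real.exp_le_exp.2
      have := lm_le H 0 (n + 2)
      rw [zero_add] at this
      linarith
    have h3 : K ≤ 2 * ℓ 0 + 12 * Real.exp (-(lm 0 / 2)) := by
      rw [hK]; unfold e0; linarith
    have h4 : K * t ≤ (2 * ℓ 0 + 12 * Real.exp (-(lm 0 / 2))) * t :=
      mul_le_mul_of_nonneg_right h3 ht0
    have h5 : Real.exp (-(lm 0 / 2)) * t ≤ Real.exp (-(lm 0 / 2)) * (3 * lm 0) :=
      mul_le_mul_of_nonneg_left htlm (Real.exp_pos _).le
    nlinarith
  have hsum : ∑ i ∈ Finset.range (n + 2), ℓ (i + 1) / L i * Th L R i t ≤ 2 * η ^ 4 / 10 ^ 6 := by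
    have h1 : ∀ i ∈ Finset.range (n + 2), ℓ (i + 1) / L i * Th L R i t ≤
        dl η (i + 1) ^ 4 * (2 / 10 ^ 6) := by
      intro i hi
      have hL := H.nm.L1 i
      have h2 : ℓ (i + 1) / L i ≤ dl η (i + 1) ^ 4 / 10 ^ 6 := by
        rw [div_le_iff₀ (by linarith)]
        exact l_le H i
      have h3 : Th L R i t ≤ 2 := by
        rcases Nat.lt_succ_iff_lt_or_eq.1 (Finset.mem_range.1 hi) with h | h
        · exact hhis.old i (by omega)
        · rw [h]; linarith [hhis.next]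
      have h4 : 0 ≤ Th L R i t := by
        have := th_mono H le_rfl ht0 ht.2 i
        rwa [e1'] at this
      have h5 := H.nm.d0 (i + 1)
      calc ℓ (i + 1) / L i * Th L R i t ≤ dl η (i + 1) ^ 4 / 10 ^ 6 * 2 := by gcongr
        _ = _ := by ring
    refine (Finset.sum_le_sum h1).trans ?_
    rw [← Finset.sum_mul]
    have h2 := dl_sum H (n + 2)
    rw [hd0] at h2
    have h3 : 0 < dl η (n + 2) ^ 4 := by have := H.nm.d0 (n + 2); positivity
    nlinarith
  have h4 : η ^ 4 ≤ η ^ 2 := by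
    have : η ^ 2 ≤ 1 := pow_le_one₀ hη.le (by linarith)
    nlinarith [sq_nonneg η]
  have h5 : 0 < η ^ 2 := by positivity
  linarith

end Pool.Agent.Y812.EJ
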