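import Pool.Agent.Y303.EJ.W
import Pool.Agent.Y907.EJ.End

/-!
# EJW-6: the inequality at a fixed time
-/

open Set Filter Topology MeasureTheory Metric

set_option autoImplicit false

namespace Pool.Agent.Y812.EJ.W6

open Pool.Agent.Y5 (E3)
open Pool.Agent.Y303.SK Pool.Agent.Y303.EJ
open Pool.Agent.Y500.SK (lap)

lemma int_inner {a b : E3 → E3} (ha : MemLp a 2 volume) (hb : MemLp b 2 volume) :
    Integrable (fun x => inner ℝ (a x) (b x)) := by
  refine Integrable.mono' (ha.norm.integrable_mul hb.norm) (ha.1.inner hb.1)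
    (Eventually.of_forall fun x => ?_)
  exact norm_inner_le_norm _ _

lemma mem_app {D : E3 → E3 →L[ℝ] E3} (hD : Continuous D) {K : ℝ} (hK : ∀ x, ‖D x‖ ≤ K)
    {a : E3 → E3} (ha : MemLp a 2 volume) : MemLp (fun x => D x (a x)) 2 volume := by
  refine MemLp.of_le_mul (c := K) ha ?_ (Eventually.of_forall fun x => ?_)
  · exact Continuous.comp_aestronglyMeasurable₂ (g := fun (A : E3 →L[ℝ] E3) (y : E3) => A y)
      isBoundedBilinearMap_apply.continuous hD.aestronglyMeasurable ha.1
  · refine ((D x).le_opNorm _).trans ?_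
    gcongr
    exact hK x

theorem t_W6 (h2 : S_W2) : S_W6 := by
  intro Ω v u G ν K hΩ hb hν hH hu hu0 hdiv hK
  obtain ⟨hv, hG, -⟩ := id hH
  have hcpt : HasCompactSupport u := by
    refine HasCompactSupport.of_support_subset_isCompact hb.isCompact_closure fun x hx => ?_
    by_contra hno
    exact hx (hu0 x fun h => hno (subset_closure h))
  have hu1 : ContDiff ℝ 1 u := hu.of_le (by exact_mod_cast le_top)
  have hu2 : ContDiff ℝ 2 u := contDiff_infty.1 hu 2
  obtain ⟨w1, -, w3⟩ := h2 Ω v u G hΩ hb hH hu2 hcpt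
  have huL : MemLp u 2 volume := hu1.continuous.memLp_of_hasCompactSupport hcpt
  have hDc : Continuous (fderiv ℝ u) := hu1.continuous_fderiv (by simp)
  have hdL : ∀ i, MemLp (fun x => fderiv ℝ u x (cv i)) 2 volume := by
    intro i
    refine Continuous.memLp_of_hasCompactSupport (hDc.clm_apply continuous_const) ?_
    exact (hcpt.fderiv (𝕜 := ℝ)).comp_left (g := fun A : E3 →L[ℝ] E3 => A (cv i)) (by simp)
  -- the gradient terms
  have i1 : ∀ i, Integrable (fun x => inner ℝ (G x i) (fderiv ℝ u x (cv i))) := fun i =>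
    int_inner (hG i) (hdL i)
  have i2 : ∀ i, Integrable (fun x => ‖G x i‖ ^ 2) := fun i => (hG i).integrable_norm_pow (by simp)
  have i3 : ∀ i, Integrable (fun x => inner ℝ (fderiv ℝ u x (cv i)) (fderiv ℝ u x (cv i))) :=
    fun i => int_inner (hdL i) (hdL i)
  have hgf : 2 * gf G u ≤ gg G + dirf u u := by
    unfold gf gg dirf
    rw [← integral_const_mul, ← integral_add (integrable_finsetSum _ fun i _ => i2 i)
      (integrable_finsetSum _ fun i _ => i3 i)]
    refine integral_mono ((integrable_finsetSum _ fun i _ => i1 i).const_mul 2)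
      ((integrable_finsetSum _ fun i _ => i2 i).add (integrable_finsetSum _ fun i _ => i3 i)) ?_
    intro x
    dsimp only [Pi.add_apply]
    rw [Finset.mul_sum, ← Finset.sum_add_distrib]
    refine Finset.sum_le_sum fun i _ => ?_
    rw [real_inner_self_eq_norm_sq]
    have h3 := real_inner_le_norm (G x i) (fderiv ℝ u x (cv i))
    nlinarith [sq_nonneg (‖G x i‖ - ‖fderiv ℝ u x (cv i)‖)]
  -- the convective terms
  set w : E3 → E3 := fun x => v x - u x with hw
  have hwL : MemLp w 2 volume := hv.sub huL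
  have hK0 : 0 ≤ K := (norm_nonneg _).trans (hK 0)
  have huuu : adv u u u = 0 := by
    have := Pool.Agent.Y907.EJ.adv_anti2 hu1 hdiv hu1 hu1 hcpt
    linarith
  have j : ∀ {a b : E3 → E3}, MemLp a 2 volume → MemLp b 2 volume →
      Integrable (fun x => inner ℝ (fderiv ℝ u x (a x)) (b x)) := fun ha hb =>
    int_inner (mem_app hDc hK ha) hb
  have hsplit : adv u u v - adv v u v = -(adv w u w) - (adv v u u - adv u u u) := by
    unfold adv
    have n1 : Integrable fun x => -(inner ℝ (fderiv ℝ u x (w x)) (w x) : ℝ) := (j hwL hwL).neg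
    have n2 : Integrable fun x => (inner ℝ (fderiv ℝ u x (v x)) (u x) : ℝ) -
      inner ℝ (fderiv ℝ u x (u x)) (u x) := (j hv huL).sub (j huL huL)
    rw [← integral_sub (j huL hv) (j hv hv), ← integral_sub (j hv huL) (j huL huL),
      ← integral_neg, ← integral_sub n1 n2]
    refine integral_congr_ae (Eventually.of_forall fun x => ?_)
    simp only [hw, map_sub, inner_sub_left, inner_sub_right]
    ring
  have hbd : |adv w u w| ≤ K * ipr w w := by
    unfold adv ipr
    rw [← integral_const_mul, ← Real.norm_eq_abs]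
    refine norm_integral_le_of_norm_le ((int_inner hwL hwL).const_mul K)
      (Eventually.of_forall fun x => ?_)
    refine (norm_inner_le_norm _ _).trans ?_
    rw [real_inner_self_eq_norm_sq]
    have h3 : ‖fderiv ℝ u x (w x)‖ ≤ K * ‖w x‖ :=
      ((fderiv ℝ u x).le_opNorm _).trans (mul_le_mul_of_nonneg_right (hK x) (norm_nonneg _))
    calc ‖fderiv ℝ u x (w x)‖ * ‖w x‖ ≤ K * ‖w x‖ * ‖w x‖ :=
          mul_le_mul_of_nonneg_right h3 (norm_nonneg _)
      _ = K * ‖w x‖ ^ 2 := by ring
  have hconv : ipr (conv u) v = adv u u v := rfl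
  rw [hconv, w1]
  have h4 := (abs_le.1 hbd).1
  have h5 : 2 * ν * (2 * gf G u) ≤ 2 * ν * (gg G + dirf u u) :=
    mul_le_mul_of_nonneg_left hgf (by positivity)
  rw [w3, huuu] at hsplit
  change _ ≤ 2 * ν * gg G + 2 * ν * dirf u u + 2 * K * ipr w w
  linarith

end Pool.Agent.Y812.EJ.W6
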